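import Pool.Agent.TH125.Sec.Pub

/-!
# The Tate conjecture for powers of hyperplane sections and covers of a variety

Let `W` be a Weil cohomology theory on a class of smooth proper varieties (over the algebraic closure
of a finitely generated field `F`), with an action of a group `Γ` (the Galois group of `F`) on the
cohomology of the varieties under consideration.

Let `f : X ⟶ Y` be an equivariant morphism such that the cohomology of `X` is the sum of
`f^* H(Y)` and of the primitive part `ker f_*`, which is concentrated in the middle degree of `X`,
and such that the projection to `f^* H(Y)` is `f^* ∘ s` where `s` is given by an algebraic cycle on
`X × Y`. Examples: `X` is a smooth hyperplane section (or a complete intersection of hypersurface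
sections) of a variety `Y` of any dimension which satisfies the hard Lefschetz theorem and the
standard conjecture of Lefschetz type (`s` is `Λ ∘ f_*`); `X` is a finite cover of `Y`
(`s = f_* / deg f`) with primitive part in the middle degree, like the cyclic covers of degree two
branched along an ample divisor.

Let the primitive part be irreducible under all subgroups of finite index of `Γ`, and let there be
one element `g` of `Γ` which acts on it by a Picard-Lefschetz formula and trivially on the
cohomology of `Y` and `Z` and on the Tate twists (for instance an element of the inertia group at a
place of `F` where `Y` and `Z` have good reduction and `X` acquires one ordinary double point).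

Then the Tate conjecture for the product `Y^(n+1) × Z` implies the Tate conjecture for
`X^(n+1) × Z`, for cycles of all codimensions and every `Z` (if the dimension of `X` is even: for
`n + 1` less than the dimension of the primitive part). No assumption on the cohomology of `Y` and
`Z` is made: transcendental classes in all degrees are allowed, and nothing is assumed about the
standard conjecture on numerical equivalence.

The proof: the classes on `X^(n+1) × Z` are decomposed according to the set of the factors `X` on
which they are primitive. The resulting multilinear maps from the primitive part `T` to the
cohomology of `Y^(n+1) × Z` are equivariant under a subgroup of finite index, and hence are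
combinations of products of the intersection form on pairs of arguments (the Lie algebra of the
operators on `T` which kill all such maps is the whole symplectic or orthogonal Lie algebra). The
form on a pair of factors comes from the component of the diagonal of `X` in `T ⊗ T`, which is
algebraic as the projector is; the coefficients are Tate classes on `Y^(n+1) × Z`.
-/

universe u v w

namespace Pool.Agent.Results.MP_0fca13_ag.HyperplaneSections

open Pool.Agent.H914 Pool.Agent.H281R3.HT Pool.Agent.TH125.Gal Pool.Agent.TH125.Sec

/-- **The Tate conjecture for powers of hyperplane sections and covers of a variety.** -/
theorem result {k : Type u} [Field k] {𝒱 : VarClass k} {ops : CycleOps 𝒱}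
    (W : WeilCohomology.{u, v} ops) {Γ : Type w} [Group Γ] (χ : Γ →* W.Kˣ) (G : Set (GVar W Γ))
    (X Y Z : GVar W Γ) (f : X.X ⟶ Y.X) (h : NodalOver χ G f Z) (n : ℕ)
    (hn : SmallPower W f n) (A B : GVar W Γ) (hA : IsPowProd Y n Z A) (hB : IsPowProd X n Z B) :
    TateConjecture χ A → TateConjecture χ B :=
  tate_power h hn hA hB

end Pool.Agent.Results.MP_0fca13_ag.HyperplaneSections
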