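import Pool.Agent.TH117.BL.Iso

/-!
# The Tate conjecture for isotrivial varieties over finitely generated fields of characteristic `p`

Over an algebraic closure of the field with `p` elements each abelian variety is isogenous to the
reduction of an abelian variety of CM type (Honda, Tate). So an abelian variety over the field with
`p ^ a` elements is modelled by a finite product of CM types `(E i, Φ i)` with Weil numbers `π i ∈ E i`
that satisfy the formula of Shimura and Taniyama (`RedAV`).

We consider abelian varieties `Z` of any dimension and with any Newton polygons, such that the group of
multiplicative relations between the Frobenius eigenvalues of `Z`, the square root of the number of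
elements of the ground field and roots of unity is generated by relations of the following kinds
(`HasElementaryRelations`):

* relations that involve at most two eigenvalues;
* Weil relations of imaginary quadratic fields on products of factors of `Z` of dimension three, four
  or five, or of dimension six if `p` splits in the quadratic field;
* relations between the Frobenius eigenvalues of a product of factors of `Z` of dimension at most five
  no two of which form an exceptional pair (`IsExceptionalPair`);
* relations between the Frobenius eigenvalues of a product of factors of `Z` of dimension at most
  three, such that any two of these factors whose CM fields have the same Galois closure over `ℚ` are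
  isogenous, unless these CM fields are Galois over `ℚ` or one of the two factors is supersingular.

Let `k` be any finitely generated field of characteristic `p`, of any transcendence degree, `Γ` its Galois
group, and let `X` be an isotrivial smooth projective variety of dimension `d` over `k`: over a finite
extension `k'` of `k` it is isomorphic to `X₀ ⊗ k'` for a variety `X₀` over the field of constants of
`k'`, which has `p ^ n` elements. Let `V = H^{2 j}(X̄)(j)` and `V' = H^{2 (d - j)}(X̄)(d - j)` with the
coefficients `ℚ_l` (`l ≠ p`) extended to `ℂ`, let `Fr` and `Fr'` be the Frobenius endomorphisms of
`X₀`, which are operations of elements of `Γ`, and `B` the duality pairing. Let `A ⊆ V` and `A' ⊆ V'` be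
the groups of the classes of algebraic cycles over `k'`, with integral coefficients, and let `A₀ ⊆ A` be
the group `A^j(X)` of the classes of algebraic cycles over `k` (`IsIntegralPair`, `IsDescent`).

Suppose that `V` and `V'` are generated by abelian varieties as above: that they are sums of the images
of finitely many homomorphisms `H^{2 m}(Y, m) → V` given by algebraic correspondences between `X₀` and
abelian varieties `Y`, each isogenous, over an algebraic closure, to a product of powers of the factors
of an abelian variety `Z` as above and of a supersingular abelian variety (`CPiece`).

Then the Tate conjecture holds for `X` and `j` in the integral form: the group `A^j(X)` is finitely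
generated, and the natural map from `A^j(X) ⊗ ℂ` to the space of the classes in `V` that are invariant
under `Γ` is an isomorphism. (Over `ℚ_l` this is the statement that `A^j(X) ⊗ ℚ_l` is isomorphic to
the space of invariants.)

Examples of such varieties `X` are all forms, split by a finite extension, of the following constant
varieties: abelian varieties of dimension at most five without exceptional pairs of factors, and their
powers; products of curves (in any number) if the product `Z` of the simple factors of their Jacobians
is as above, for example if it has dimension at most five and no exceptional pairs; symmetric powers of
such curves, moduli spaces of stable vector bundles (of coprime rank and degree) on them. For instance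
all twists of constant abelian varieties `A` with finite subgroups of `Aut (A)`, such as the
twists of constant elliptic curves and their products and the isotrivial families of abelian fivefolds.

Besides linear algebra, the proof uses only that `Γ` maps to the span of `A` the Tate classes in the
smallest system of cohomology classes `Alg` of abelian varieties over finite fields that contains the
classes of degree zero, the Tate classes of degree two and the reductions of the split Weil classes of
imaginary quadratic fields on abelian fourfolds and sixfolds of CM type, and that is stable under
linear combinations, cup products, pull-backs along homomorphisms and push-forwards along projections.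
These classes are algebraic by theorems of Tate and Markman.
-/

namespace Pool.Agent.Results.MP_0fca13_ag.IsotrivialIsomorphism

open Pool.Agent.TH117.BL

/-- The cohomology groups `V` and `V'` of complementary degrees are generated by abelian varieties, `A₀`
is the group of the classes of cycles over `k` in `V`: it is finitely generated, and `A₀ ⊗ ℂ` is mapped
isomorphically to the space of invariants. -/
theorem result (p : ℕ) [Fact p.Prime] (ν : PadicAlgCl p ≃+* ℂ) (n : ℕ)
    {V V' : Type} [AddCommGroup V] [Module ℂ V] [AddCommGroup V'] [Module ℂ V']
    (Fr : V →ₗ[ℂ] V) (Fr' : V' →ₗ[ℂ] V') (B : V →ₗ[ℂ] V' →ₗ[ℂ] ℂ)
    (A A₀ : AddSubgroup V) (A' : AddSubgroup V') (H : IsIntegralPair Fr Fr' B A A')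
    {Γ : Type} [Group Γ] (ρ : Γ →* (V →ₗ[ℂ] V)) (hA : IsDescent Fr ρ A A₀)
    {ι ι' : Type} [Finite ι] [Finite ι']
    (S : ι → CPiece p ν n Fr (Submodule.span ℂ (A : Set V)))
    (hS : ⨆ i, LinearMap.range (S i).Γ = ⊤)
    (S' : ι' → CPiece p ν n Fr' (Submodule.span ℂ (A' : Set V')))
    (hS' : ⨆ i, LinearMap.range (S' i).Γ = ⊤) :
    AddGroup.FG A₀ ∧ Function.Injective (cycleMap A₀) ∧
      ∀ v, v ∈ LinearMap.range (cycleMap A₀) ↔ ∀ γ, ρ γ v = v :=
  isotrivial p ν n H ρ hA S hS S' hS'

end Pool.Agent.Results.MP_0fca13_ag.IsotrivialIsomorphism
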