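import Pool.Agent.TH127.SC.Ring

/-!
# The ring of Tate classes on all products of powers of simple abelian varieties over finite fields:
# CM fields with good classes of embeddings

Let `A i` be finitely many simple abelian varieties over the field with `q = p ^ m` elements, with
Weil numbers `π i` that generate the CM fields `K i = ℚ(π i)`. Let `Ω` be an algebraic closure of
`ℚ_ℓ`. We determine the Tate classes, over all finite extensions, on all products `X` of copies of
the `A i` (all powers, all degrees), without any condition on the slopes, if all classes of
embeddings of the `K i` are good in the following sense.

Two complex embeddings `x`, `y` of the fields `K i` are *flipped* if some automorphism of `ℂ` fixes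
one of them and conjugates the other, or maps `x` to `y` and `y` to the complex conjugate of `x`. The
*classes* are those of the equivalence relation generated by not being flipped. A class is *good* if
its elements are translates of each other under the automorphisms of `ℂ`, and if it consists of `b`
pairs of conjugate embeddings where `b` is `1` or a prime number, or any two of the pairs can be moved
to any two others and `b` is odd or `b - 1` is prime or the same is true for any three pairs.

A CM subfield `T` of `K i` is called degenerate if for two different embeddings of `T` some
positive powers, with the same exponent, of the conjugates of `N(π i) ^ 2 / p ^ (m [K i : T])` are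
equal; here `N` is the norm to `T`. (Exotic Tate classes of Weil type come from such subfields.)

Suppose that powers of conjugates of such norms from different fields `K i`, `K i'` are never equal,
unless they are roots of unity (`NonMixing`; this holds if different fields have no isomorphic CM
subfields). Then the ring of Tate classes of every product `X` is generated by the Tate classes of
degree two, which are divisor classes by Tate's theorem, and by the pull-backs, along homomorphisms
`X → A i × A i'`, `X → A i`, of Tate classes of `A i × A i'` and `A i`, where `K i` and `K i'` have
degenerate CM subfields. In particular the Tate conjecture for the abelian varieties `A i × A i'`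
(`i = i'` allowed) implies the Tate conjecture for all products of powers of the `A i`. If moreover
the distances of the slopes from the middle slope are odd multiples of one number, for instance if
all `A i` are ordinary, then the pull-backs of Tate classes of the single `A i` suffice: the Tate
conjecture for the `A i` implies it for all products of powers.

The second part gives examples: a CM field of degree `2 n` has only good classes if `n` is `1` or a
prime number, or if `n` is a product of two prime numbers and the embeddings do not form one class.
-/

namespace Pool.Agent.Results.MP_0fca13_ag.RingOfGoodClasses

open NumberField Pool.Agent.W527.TateRing Pool.Agent.TH127.SC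

theorem result {p m : ℕ} [Fact p.Prime] :
    (∀ {ι : Type} [Fintype ι] (W : ι → WeilNumber p m),
      (∀ x : Embs (fun i => (W i).K), Good x) →
      ∀ {Ω : Type} [Field Ω] [IsAlgClosed Ω] [CharZero Ω] (A : ι → FrobSpace Ω),
      (∀ i, IsOfType (A i) (W i)) → NonMixing W → ∀ (J : Type) [Fintype J] (t : J → ι) (κ : Type)
      [Finite κ] (f : Coh (productOf A t) κ), Even (Nat.card κ) →
      (IsTate (p ^ m) f ↔ TRing (p ^ m) 2 A (fun i => HasDegenerate (W i)) (productOf A t) κ f) ∧
      (OddSlopes W → (IsTate (p ^ m) f ↔
        TRing (p ^ m) 1 A (fun i => HasDegenerate (W i)) (productOf A t) κ f))) ∧
    ∀ (W : WeilNumber p m), SmallDegree W.K → ∀ x : Embs (fun _ : Unit => W.K), Good x :=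
  ⟨fun _ hgood _ _ _ _ A hA hmix J _ t κ _ f hκ => ring_main hgood A hA hmix J t κ f hκ,
    fun _ h x => (good_of_smallDegree h x).1⟩

end Pool.Agent.Results.MP_0fca13_ag.RingOfGoodClasses
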