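import Mathlib
import Pool.Agent.TH115.Toric
import Pool.Agent.H204R3.GP.Defs

/-!
# The Tate conjecture for all powers of abelian varieties with places of odd or small toric rank

Let `A` be an abelian variety over a number field (or over a finitely generated field), `V` its
rational Tate module, `ρ` the action of the Galois group `Γ`, `χ` the cyclotomic character, `ω`
the Weil pairing of a polarization.

The *strongly irreducible* subspaces `U` (predicate `SI`) of `V` over the algebraic closure of
`ℚ_ℓ` are the minimal nonzero subspaces that are stable under a subgroup of finite index of `Γ`.  If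
the endomorphism ring of `A` is `ℤ` there is just one.  If it is totally real or a
totally indefinite quaternion algebra (types I and II in the classification of Albert) they
correspond to the embeddings of the centre and they are self-dual with an alternating pairing.

Let `v` be a place with semistable reduction and `γ` a topological generator of the tame inertia
group.  Then `(γ - 1) ^ 2 = 0`, and the rank of `γ - 1` on `V` is the dimension of the toric part of
the reduction.  The rank of `γ - 1` on `U` is the toric rank of `U` at `v`.

Theorem.  Suppose that for each strongly irreducible `U` of dimension at least two there is a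
place where the toric rank of `U` is

* one, or
* two, and `U` is self-dual with an alternating pairing, or
* any odd number, `U` is self-dual with an alternating pairing, and the weak Hodge elements generate
  (a consequence of the theorem of Pink on Hodge cocharacters, characteristic zero).

If there are `U` which are not self-dual with an alternating pairing (type IV) we also suppose the
conditions `LinesNotSelfDual`, `TwistFree`, `DetIndependent`, which say that the Weil classes are
not Tate classes; they are void if all factors of `A` are of types I and II.

Then all Tate classes on all powers of `A` are linear combinations of products of Tate classes of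
degree two.  By the theorem of Faltings these are classes of divisors: the Tate conjecture holds for
all powers of `A`.
-/

namespace Pool.Agent.Results.MP_0fca13_ag.ToricRankPowers

open Module Pool.Agent.H204R3.SP Pool.Agent.H204R3.GP Pool.Agent.W522.U

theorem result (ℓ : ℕ) [Fact ℓ.Prime]
    {V : Type} [AddCommGroup V] [Module ℚ_[ℓ] V] [FiniteDimensional ℚ_[ℓ] V]
    {Γ : Type} [Group Γ] (ρ : Representation ℚ_[ℓ] Γ V) (χ : Γ →* ℚ_[ℓ])
    (ω : V →ₗ[ℚ_[ℓ]] V →ₗ[ℚ_[ℓ]] ℚ_[ℓ]) (halt : ∀ v, ω v v = 0)
    (hnondeg : ∀ u, (∀ v, ω v u = 0) → u = 0)
    (hω : ∀ s u v, ω (ρ s u) (ρ s v) = χ s * ω u v)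
    (hss : FiniteIndexSemisimple ρ)
    (htoric : Pool.Agent.TH115.Toric.HasToricPlaces (bcr ρ (AlgebraicClosure ℚ_[ℓ]))
      (bcc χ (AlgebraicClosure ℚ_[ℓ])))
    (hlines : LinesNotSelfDual (bcr ρ (AlgebraicClosure ℚ_[ℓ])) (bcc χ (AlgebraicClosure ℚ_[ℓ])))
    (htwist : TwistFree (bcr ρ (AlgebraicClosure ℚ_[ℓ])) (bcc χ (AlgebraicClosure ℚ_[ℓ])))
    (hdet : DetIndependent (bcr ρ (AlgebraicClosure ℚ_[ℓ])) (bcc χ (AlgebraicClosure ℚ_[ℓ]))) :
    TateGeneratedInDegreeTwo ρ χ := by
  refine generated_of_ext ρ χ (AlgebraicClosure ℚ_[ℓ]) fun m φ hφ => ?_
  refine Pool.Agent.TH115.Toric.main_toric (bcb (AlgebraicClosure ℚ_[ℓ]) ω) ?_ ?_ htoric hlines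
    htwist hdet (hasProj_bcr ρ _ hss) φ hφ
  · exact fun u hu => bcb_nondeg_left ω hnondeg (left_nondeg ω halt hnondeg) u hu
  · exact fun g u v => bcb_inv ρ χ ω hω g u v

end Pool.Agent.Results.MP_0fca13_ag.ToricRankPowers
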